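import Mathlib
import Pool.Agent.V11145.Disp4

namespace Pool.Agent.Results.MP_49573d_co.EvenProfiles

open Finset
open Pool.Agent.V11145.Disp

/-- The four families of the question: weak orders, semiorders, interval orders, partial
orders on `X`. -/
def Family (X : Type) [Fintype X] [DecidableEq X] : Set (Set (Finset (X × X))) :=
  {{r | IsWeak r}, {r | IsSemi r}, {r | IsInterval r}, {r | IsPO r}}

/-- For an even number `v = 2p` of voters the maximum dispersal of each of the four families
on a set with `n` elements is `v * C(n,2)`. -/
theorem result (X : Type) [Fintype X] [DecidableEq X] (R : Set (Finset (X × X)))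
    (hR : R ∈ Family X) (p : ℕ) :
    F R (2 * p) = 2 * p * (Fintype.card X).choose 2 := by
  have hw : ∀ r, IsWeak r → r ∈ R := by
    intro r hr
    rcases hR with rfl | rfl | rfl | rfl
    · exact hr
    · exact weak_semi hr
    · exact (weak_semi hr).1
    · exact hr.1
  have hpo : ∀ r ∈ R, IsPO r := by
    intro r hr
    rcases hR with rfl | rfl | rfl | rfl
    · exact hr.1
    · exact hr.1.1
    · exact hr.1
    · exact hr
  have hlin : ∀ r, IsLin r → r ∈ R := fun r hr => hw r (lin_weak hr)
  obtain ⟨L, -, hL, -, -⟩ := exists_lin (X := X)
  have hne : R.Nonempty := ⟨L, hlin L hL⟩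
  exact le_antisymm (upper_all hlin hpo (F_good hne (2 * p)))
    (le_F hne (good_even hlin hpo p))

end Pool.Agent.Results.MP_49573d_co.EvenProfiles
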