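import Mathlib
import Pool.Agent.V11145.Disp9

namespace Pool.Agent.Results.MP_49573d_co.IntervalTypeOdd

open Finset
open Pool.Agent.V11145.Disp

/-- The families (a), (b), (c) of the question: weak orders, semiorders, interval orders. -/
def IntervalFamily (X : Type) [Fintype X] [DecidableEq X] : Set (Set (Finset (X × X))) :=
  {{r | IsWeak r}, {r | IsSemi r}, {r | IsInterval r}}

/-- For weak orders, semiorders and interval orders the maximum dispersal of a large odd number
`v` of voters is at least `(v - 48 / 2^k) * C(n,2)` as soon as `v ≥ 256^k` and `n ≥ 16^k`; for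
`k ≥ 8` it exceeds the maximum dispersal of the family of all partial orders. -/
theorem result (X : Type) [Fintype X] [DecidableEq X] (R : Set (Finset (X × X)))
    (hR : R ∈ IntervalFamily X) (k v : ℕ) (hv : Odd v) (hvk : 256 ^ k ≤ v)
    (hn : 16 ^ k ≤ Fintype.card X) :
    2 ^ k * (v * (Fintype.card X).choose 2) ≤
      2 ^ k * F R v + 48 * (Fintype.card X).choose 2 ∧
    (8 ≤ k → F {r : Finset (X × X) | IsPO r} v < F R v) := by
  have hw : ∀ r, IsWeak r → r ∈ R := by
    intro r hr
    rcases hR with rfl | rfl | rfl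
    · exact hr
    · exact weak_semi hr
    · exact (weak_semi hr).1
  have hint : ∀ r ∈ R, IsInterval r := by
    intro r hr
    rcases hR with rfl | rfl | rfl
    · exact (weak_semi hr).1
    · exact hr.1
    · exact hr
  have hlin : ∀ r, IsLin r → r ∈ R := fun r hr => hw r (lin_weak hr)
  have hC : Fintype.card X * (Fintype.card X - 1) = 2 * (Fintype.card X).choose 2 := by
    have h := Nat.choose_two_right (Fintype.card X)
    have h2 : 2 ∣ Fintype.card X * (Fintype.card X - 1) :=
      (Nat.even_mul_pred_self _).two_dvd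
    rw [h]
    exact (Nat.mul_div_cancel' h2).symm
  have h16 : 0 < 16 ^ k := by positivity
  have first : 2 ^ k * (v * (Fintype.card X).choose 2) ≤
      2 ^ k * F R v + 48 * (Fintype.card X).choose 2 := by
    rcases Nat.lt_or_ge (Fintype.card X) 2 with h1 | h1
    · rw [Nat.choose_eq_zero_of_lt h1]
      simp
    obtain ⟨b, hb⟩ : ∃ b, b = Fintype.card X / 16 ^ k + 1 := ⟨_, rfl⟩
    have hXb : Fintype.card X ≤ 16 ^ k * b := by
      rw [hb]
      have := Nat.div_add_mod (Fintype.card X) (16 ^ k)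
      have := Nat.mod_lt (Fintype.card X) h16
      rw [mul_add]
      omega
    have hb2 : 16 ^ k * b ≤ 2 * Fintype.card X := by
      rw [hb, mul_add]
      have := Nat.mul_div_le (Fintype.card X) (16 ^ k)
      omega
    have h2 := lower_blow hXb hlin hint hv hvk
    have h3 : 2 ^ k * ((2 * 128 ^ k + 16 ^ k) * b ^ 2) ≤ 3 * (16 ^ k * b) ^ 2 := by
      have e1 : 2 ^ k * 128 ^ k = (16 ^ k) ^ 2 := by
        rw [← mul_pow, ← pow_mul, mul_comm k 2, pow_mul]
        norm_num
      have e2 : 2 ^ k * 16 ^ k ≤ (16 ^ k) ^ 2 := by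
        rw [← e1]
        exact Nat.mul_le_mul_left _ (Nat.pow_le_pow_left (by norm_num) k)
      calc 2 ^ k * ((2 * 128 ^ k + 16 ^ k) * b ^ 2)
          = (2 * (2 ^ k * 128 ^ k) + 2 ^ k * 16 ^ k) * b ^ 2 := by ring
        _ ≤ (2 * (16 ^ k) ^ 2 + (16 ^ k) ^ 2) * b ^ 2 := by
            refine Nat.mul_le_mul_right _ ?_
            rw [e1]
            exact Nat.add_le_add_left e2 _
        _ = 3 * (16 ^ k * b) ^ 2 := by ring
    have h4 : 3 * (16 ^ k * b) ^ 2 ≤ 48 * (Fintype.card X).choose 2 := by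
      have e3 : (16 ^ k * b) ^ 2 ≤ (2 * Fintype.card X) ^ 2 := Nat.pow_le_pow_left hb2 2
      have e4 : Fintype.card X * Fintype.card X ≤
          2 * (Fintype.card X * (Fintype.card X - 1)) := by
        obtain ⟨m, hm⟩ : ∃ m, Fintype.card X = m + 2 := ⟨Fintype.card X - 2, by omega⟩
        rw [hm]
        have : m + 2 - 1 = m + 1 := by omega
        rw [this]
        nlinarith
      rw [hC] at e4
      nlinarith
    calc 2 ^ k * (v * (Fintype.card X).choose 2)
        ≤ 2 ^ k * (F R v + (2 * 128 ^ k + 16 ^ k) * b ^ 2) := Nat.mul_le_mul_left _ h2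
      _ = 2 ^ k * F R v + 2 ^ k * ((2 * 128 ^ k + 16 ^ k) * b ^ 2) := by ring
      _ ≤ 2 ^ k * F R v + 48 * (Fintype.card X).choose 2 :=
          Nat.add_le_add_left (h3.trans h4) _
  refine ⟨first, ?_⟩
  intro hk
  obtain ⟨L, -, hL, -, -⟩ := exists_lin (X := X)
  have hne : {r : Finset (X × X) | IsPO r}.Nonempty := ⟨L, hL.1⟩
  have h5 := upper_bip' (R := {r : Finset (X × X) | IsPO r}) (fun r hr => hr)
    (fun r hr => hr) hv (F_good hne v)
  have h6 : (Fintype.card X).choose 2 ≤ 2 * (Fintype.card X ^ 2 / 4) := by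
    rcases Nat.even_or_odd' (Fintype.card X) with ⟨m, hm | hm⟩
    · rw [hm] at hC ⊢
      have e1 : (2 * m) ^ 2 / 4 = m * m := by
        have : (2 * m) ^ 2 = 4 * (m * m) := by ring
        rw [this]; omega
      rw [e1]
      have e2 : 2 * m * (2 * m - 1) ≤ 2 * m * (2 * m) := Nat.mul_le_mul_left _ (by omega)
      nlinarith
    · rw [hm] at hC ⊢
      have e1 : (2 * m + 1) ^ 2 / 4 = m * (m + 1) := by
        have : (2 * m + 1) ^ 2 = 4 * (m * (m + 1)) + 1 := by ring
        rw [this]; omega
      rw [e1]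
      have e2 : 2 * m + 1 - 1 = 2 * m := by omega
      rw [e2] at hC
      nlinarith
  have h7 : 4 * F {r : Finset (X × X) | IsPO r} v + (Fintype.card X).choose 2 ≤
      4 * (v * (Fintype.card X).choose 2) := by omega
  have h8 : 256 ≤ 2 ^ k := by
    calc 256 = 2 ^ 8 := by norm_num
      _ ≤ 2 ^ k := Nat.pow_le_pow_right (by norm_num) hk
  have h9 : 0 < (Fintype.card X).choose 2 := by
    refine Nat.choose_pos ?_
    calc 2 ≤ 16 ^ 8 := by norm_num
      _ ≤ 16 ^ k := Nat.pow_le_pow_right (by norm_num) hk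
      _ ≤ Fintype.card X := hn
  by_contra hcon
  push Not at hcon
  have h10 : 2 ^ k * (4 * F R v + (Fintype.card X).choose 2) ≤
      2 ^ k * (4 * (v * (Fintype.card X).choose 2)) :=
    Nat.mul_le_mul_left _ (by omega)
  have h11 : 2 ^ k * (Fintype.card X).choose 2 ≤ 192 * (Fintype.card X).choose 2 := by
    nlinarith
  have h12 := Nat.le_of_mul_le_mul_right h11 h9
  omega

end Pool.Agent.Results.MP_49573d_co.IntervalTypeOdd
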