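import Mathlib
import Pool.Agent.V11145.Disp4
import Pool.Agent.V11145.Disp12

namespace Pool.Agent.Results.MP_49573d_co.OddProfiles

open Finset
open Pool.Agent.V11145.Disp

/-- The four families of the question: weak orders, semiorders, interval orders, partial
orders on `X`. -/
def Family (X : Type) [Fintype X] [DecidableEq X] : Set (Set (Finset (X × X))) :=
  {{r | IsWeak r}, {r | IsSemi r}, {r | IsInterval r}, {r | IsPO r}}

/-- Two-sided bounds for the maximum dispersal of an odd number of voters, exact for three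
voters when `n` is a product of numbers from `{3, 7, 13, 15, 19}`. -/
theorem result (X : Type) [Fintype X] [DecidableEq X] (R : Set (Finset (X × X)))
    (hR : R ∈ Family X) :
    (∀ v : ℕ, Odd v → v * F R v ≤ (v ^ 2 - 1) * (Fintype.card X).choose 2 ∧
      F R v + Fintype.card X / 2 ≤ v * (Fintype.card X).choose 2) ∧
    (∀ v : ℕ, Odd v → 3 ≤ v →
      (3 * v - 1) * (Fintype.card X).choose 2 ≤
        3 * F R v + 2 * Fintype.card X * Nat.clog 3 (Fintype.card X)) ∧
    (Fintype.card X ∈ Submonoid.closure ({3, 7, 13, 15, 19} : Set ℕ) →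
      (∀ v : ℕ, Odd v → 3 ≤ v → (3 * v - 1) * (Fintype.card X).choose 2 ≤ 3 * F R v) ∧
      3 * F R 3 = 8 * (Fintype.card X).choose 2) := by
  have hw : ∀ r, IsWeak r → r ∈ R := by
    intro r hr
    rcases hR with rfl | rfl | rfl | rfl
    · exact hr
    · exact weak_semi hr
    · exact (weak_semi hr).1
    · exact hr.1
  have hpo : ∀ r ∈ R, IsPO r := by
    intro r hr
    rcases hR with rfl | rfl | rfl | rfl
    · exact hr.1
    · exact hr.1.1
    · exact hr.1
    · exact hr
  have hlin : ∀ r, IsLin r → r ∈ R := fun r hr => hw r (lin_weak hr)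
  obtain ⟨L, -, hL, -, -⟩ := exists_lin (X := X)
  have hne : R.Nonempty := ⟨L, hlin L hL⟩
  refine ⟨fun v hv => ⟨upper_odd hpo hv (F_good hne v), upper_half hw hpo hv (F_good hne v)⟩,
    fun v hv hv3 => ?_, fun hcl => ?_⟩
  · obtain ⟨q, hq⟩ := hv
    obtain ⟨p, rfl⟩ : ∃ p, q = p + 1 := ⟨q - 1, by omega⟩
    have e : v = 2 * p + 3 := by omega
    have e2 : 3 * v - 1 = 6 * p + 8 := by omega
    rw [e2, e]
    exact (lower_odd hlin hpo p).trans (Nat.add_le_add_left (Er_le _) _)
  · have hlow : ∀ v : ℕ, Odd v → 3 ≤ v →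
        (3 * v - 1) * (Fintype.card X).choose 2 ≤ 3 * F R v := by
      intro v hv hv3
      obtain ⟨q, hq⟩ := hv
      obtain ⟨p, rfl⟩ : ∃ p, q = p + 1 := ⟨q - 1, by omega⟩
      have e : v = 2 * p + 3 := by omega
      have e2 : 3 * v - 1 = 6 * p + 8 := by omega
      rw [e2, e]
      exact lower_odd_tight hlin hpo (tight_closure hcl) p
    refine ⟨hlow, ?_⟩
    have h1 := hlow 3 (by decide) le_rfl
    have h2 := upper_odd hpo (by decide) (F_good hne 3)
    norm_num at h1 h2
    omega

end Pool.Agent.Results.MP_49573d_co.OddProfiles
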