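import Mathlib
import Pool.Agent.V11145.Disp5

namespace Pool.Agent.Results.MP_49573d_co.PartialOrdersOdd

open Finset
open Pool.Agent.V11145.Disp

/-- For an odd number `v` of voters the maximum dispersal of the family of all partial orders
on a set with `n` elements falls short of `v * C(n,2)` by at least `floor(n^2/4) / 2`. -/
theorem result (X : Type) [Fintype X] [DecidableEq X] (v : ℕ) (hv : Odd v) :
    2 * F {r : Finset (X × X) | IsPO r} v + Fintype.card X ^ 2 / 4 ≤
      2 * (v * (Fintype.card X).choose 2) := by
  obtain ⟨L, -, hL, -, -⟩ := exists_lin (X := X)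
  have hne : {r : Finset (X × X) | IsPO r}.Nonempty := ⟨L, hL.1⟩
  exact upper_bip' (fun r hr => hr) (fun r hr => hr) hv (F_good hne v)

end Pool.Agent.Results.MP_49573d_co.PartialOrdersOdd
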